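import Pool.Agent.Helper83.DB.Glob
import Pool.Agent.R390.SF.DegI

/-!
# The class of the polarized systems with distinct Jordan blocks
-/

set_option autoImplicit false
set_option linter.unusedSectionVars false

namespace Pool.Agent.Helper83.DB

open Module Matrix Polynomial NumberField Pool.Agent.Y800 Pool.Agent.R390.SF IntegralSystem
open Pool.Agent.Y126.SH (chi exists_reps)
open Pool.Agent.Helper83.SM

variable {F : SubFld ℚ} [hF : FiniteDimensional ℚ F] {n : ℕ} {S S' : Finset ℕ} {w : ℕ}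
  {T : IntegralSystem F n}

theorem noIso_rat (hT : Polarized S S' w T) {ℓ : ℕ} [hℓ : Fact ℓ.Prime] {p : ℕ} (hp : p.Prime)
    (hpℓ : ℓ ≠ p) (h : ∀ P : Ideal ZBar, P.IsMaximal → (p : ZBar) ∈ P →
      DistinctBlocksAt F (T.rat ℓ) P) :
    ∃ J : Matrix (Fin n) (Fin n) ℚ_[ℓ], Equi (T.rat ℓ) J ∧ NoIso (T.rat ℓ) J := by
  obtain ⟨J, hJ, _⟩ := hT.polarization ℓ
  refine ⟨_, equi_rat hJ, fun U hU hiso => ?_⟩
  have hdet : algebraMap ℤ_[ℓ] ℚ_[ℓ] J.det ≠ 0 := fun h0 => hJ.nondegenerate (Subtype.ext h0)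
  exact no_iso_block (algebraMap ℤ_[ℓ] ℚ_[ℓ]) hT.pure hJ hdet hU hiso (rat_wt hT.pure U hU) hp hpℓ h
    (fun e he _ => pow_ne_one_padic hp he)

theorem noIso_res (hT : Polarized S S' w T) {ℓ : ℕ} [hℓ : Fact ℓ.Prime] {p : ℕ} (hp : p.Prime)
    (hpℓ : ℓ ≠ p) (h : ∀ P : Ideal ZBar, P.IsMaximal → (p : ZBar) ∈ P →
      DistinctBlocksAt F (T.res ℓ) P)
    (hlt : p ^ (expo F.fixingSubgroup * (finrank ℚ F * n ^ 3)) < ℓ)
    (hW : ∀ (U : Submodule (ZMod ℓ) (Fin n → ZMod ℓ)) (hU : IsStable (T.res ℓ) U),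
      Wt (PadicInt.toZMod (p := ℓ)) w (finrank (ZMod ℓ) U) (detChar (T.res ℓ) U hU))
    {J : Matrix (Fin n) (Fin n) ℤ_[ℓ]} (hJ : T.IsPolarization w ℓ J) (hJu : IsUnit J.det) :
    NoIso (toF (T.rho ℓ)) (rd J) := by
  intro U hU hiso
  have hdet : PadicInt.toZMod J.det ≠ 0 := (hJu.map (PadicInt.toZMod (p := ℓ))).ne_zero
  exact no_iso_block (PadicInt.toZMod (p := ℓ)) hT.pure hJ hdet hU hiso (hW U hU) hp hpℓ h
    (fun e he heE => pow_ne_one hp he heE hlt)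

/-- The class: polarized systems such that for every `ℓ` in `Λ` there is a prime `p ≠ ℓ` in `S` such
that the monodromy of `V_ℓ` at the places above `p` has Jordan blocks of pairwise different sizes, and
the same for `T_ℓ / ℓ` for the `ℓ` in `Λ` outside `S'`. -/
structure DistinctBlocks {F : SubFld ℚ} {n : ℕ} (S S' : Finset ℕ) (w : ℕ) (Λ : Set ℕ)
    (T : IntegralSystem F n) : Prop extends Polarized S S' w T where
  rational : ∀ (ℓ : ℕ) [Fact ℓ.Prime], ℓ ∈ Λ → ∃ p ∈ S, p.Prime ∧ ℓ ≠ p ∧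
    ∀ P : Ideal ZBar, P.IsMaximal → (p : ZBar) ∈ P → DistinctBlocksAt F (T.rat ℓ) P
  residual : ∀ (ℓ : ℕ) [Fact ℓ.Prime], ℓ ∈ Λ → ℓ ∉ S' → ∃ p ∈ S, p.Prime ∧ ℓ ≠ p ∧
    ∀ P : Ideal ZBar, P.IsMaximal → (p : ZBar) ∈ P → DistinctBlocksAt F (T.res ℓ) P

theorem finiteness (hn : 0 < n) (w : ℕ) (S S' : Finset ℕ) (Λ : Set ℕ) :
    ∃ (m : ℕ) (T : Fin m → IntegralSystem F n), (∀ i, DistinctBlocks S S' w Λ (T i)) ∧
      ∀ T' : IntegralSystem F n, DistinctBlocks S S' w Λ T' → ∃ i, IsomorphicOn Λ (T i) T' := by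
  refine pol_class_finiteness hn w S S' Λ (DistinctBlocks S S' w Λ)
    (fun T hT => hT.toPolarized) (fun T hT ℓ _ hΛ => ?_)
    ⟨S.sup fun p => p ^ (expo F.fixingSubgroup * (finrank ℚ F * n ^ 3)),
      fun T hT ℓ _ hΛ hlt hℓS hW J hJ hJu => ?_⟩
  · obtain ⟨p, hpS, hp, hpℓ, h⟩ := hT.rational ℓ hΛ
    exact noIso_rat hT.toPolarized hp hpℓ h
  · obtain ⟨p, hpS, hp, hpℓ, h⟩ := hT.residual ℓ hΛ hℓS
    exact noIso_res hT.toPolarized hp hpℓ h (lt_of_le_of_lt (Finset.le_sup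
      (f := fun p => p ^ (expo F.fixingSubgroup * (finrank ℚ F * n ^ 3))) hpS) hlt) hW hJ hJu

end Pool.Agent.Helper83.DB
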