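import Pool.Agent.Helper83.DB.Lin

/-!
# The determinant of Frobenius on a stable subspace
-/

set_option autoImplicit false
set_option linter.unusedSectionVars false

namespace Pool.Agent.Helper83.DB

open Module Finset

variable {k V : Type*} [Field k] [AddCommGroup V] [Module k V] [FiniteDimensional k V]

open Classical in
/-- determinant on a stable subspace -/
noncomputable def dR (Φ : End k V) (A : Submodule k V) : k :=
  if h : ∀ x ∈ A, Φ x ∈ A then LinearMap.det (Φ.restrict h) else 0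

theorem dR_eq {Φ : End k V} {A : Submodule k V} (h : ∀ x ∈ A, Φ x ∈ A) :
    dR Φ A = LinearMap.det (Φ.restrict h) := dif_pos h

theorem dR_bot (Φ : End k V) : dR Φ ⊥ = 1 := by
  have h : ∀ x ∈ (⊥ : Submodule k V), Φ x ∈ (⊥ : Submodule k V) := by
    intro x hx
    rw [Submodule.mem_bot] at hx ⊢
    rw [hx, map_zero]
  rw [dR_eq h]
  have : Subsingleton (⊥ : Submodule k V) := inferInstance
  rw [LinearMap.det_eq_one_of_subsingleton]

theorem dR_step {Φ : End k V} {A A₁ : Submodule k V} (hle : A₁ ≤ A) (hA : ∀ x ∈ A, Φ x ∈ A)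
    (hA₁ : ∀ x ∈ A₁, Φ x ∈ A₁) {c : k} (hc : ∀ x ∈ A, Φ x - c • x ∈ A₁) :
    dR Φ A = dR Φ A₁ * c ^ (finrank k A - finrank k A₁) := by
  rw [dR_eq hA, dR_eq hA₁]
  let W : Submodule k A := A₁.submoduleOf A
  let Ψ : End k A := Φ.restrict hA
  have hW : W ≤ W.comap Ψ := fun x hx => hA₁ x hx
  have h1 : Ψ.det = (Ψ.restrict hW).det * (W.mapQ W Ψ hW).det := LinearMap.det_eq_det_mul_det W Ψ hW
  have h2 : (Ψ.restrict hW).det = LinearMap.det (Φ.restrict hA₁) := by
    let e : W ≃ₗ[k] A₁ := Submodule.submoduleOfEquivOfLe hle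
    have h3 : Φ.restrict hA₁ = (e : W →ₗ[k] A₁) ∘ₗ (Ψ.restrict hW) ∘ₗ (e.symm : A₁ →ₗ[k] W) := by
      apply LinearMap.ext
      intro x
      rfl
    rw [h3, LinearMap.det_conj]
  have h3 : W.mapQ W Ψ hW = c • LinearMap.id := by
    apply LinearMap.ext
    intro x
    obtain ⟨y, rfl⟩ := Submodule.mkQ_surjective W x
    rw [Submodule.mkQ_apply, Submodule.mapQ_apply, LinearMap.smul_apply, LinearMap.id_apply,
      ← Submodule.Quotient.mk_smul, Submodule.Quotient.eq]
    exact hc y y.2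
  have h4 : (W.mapQ W Ψ hW).det = c ^ (finrank k A - finrank k A₁) := by
    rw [h3, LinearMap.det_smul, LinearMap.det_id, mul_one]
    congr 1
    have h5 := W.finrank_quotient_add_finrank
    have h6 : finrank k W = finrank k A₁ := (Submodule.submoduleOfEquivOfLe hle).finrank_eq
    omega
  show Ψ.det = _
  rw [h1, h2, h4]

variable {n : ℕ} {N Φ : End k V} {q : ℕ} {s : k} {B : V →ₗ[k] V →ₗ[k] k}

/-- the double filtration -/
def fl (N : End k V) (U : Submodule k V) (i b : ℕ) : Submodule k V :=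
  (U ⊓ LinearMap.ker (N ^ (i + 1))) ⊓ (LinearMap.range (N ^ b)).comap (N ^ i)

/-- the filtration by kernels -/
def kf (N : End k V) (U : Submodule k V) (i : ℕ) : Submodule k V := U ⊓ LinearMap.ker (N ^ i)

/-- the jumps -/
noncomputable def dl (N : End k V) (U : Submodule k V) (i b : ℕ) : ℕ :=
  finrank k (fl N U i b) - finrank k (fl N U i (b + 1))

theorem range_anti (b : ℕ) : LinearMap.range (N ^ (b + 1)) ≤ LinearMap.range (N ^ b) := by
  rintro _ ⟨z, rfl⟩
  exact ⟨N z, by rw [pow_succ, Module.End.mul_apply]⟩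

theorem fl_anti (U : Submodule k V) (i b : ℕ) : fl N U i (b + 1) ≤ fl N U i b :=
  inf_le_inf_left _ (Submodule.comap_mono (range_anti b))

theorem fl_eq {U : Submodule k V} {i b : ℕ} (h : b ≤ i) : fl N U i b = kf N U (i + 1) := by
  apply le_antisymm inf_le_left
  refine le_inf le_rfl ?_
  intro x _
  refine ⟨(N ^ (i - b)) x, ?_⟩
  rw [← Module.End.mul_apply, ← pow_add]
  congr 2
  omega

theorem fl_top {U : Submodule k V} {i : ℕ} (hn : N ^ n = 0) : fl N U i n = kf N U i := by
  apply le_antisymm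
  · rintro x ⟨⟨h1, _⟩, h2⟩
    refine ⟨h1, ?_⟩
    obtain ⟨z, hz⟩ := h2
    rw [hn, LinearMap.zero_apply] at hz
    exact hz.symm
  · rintro x ⟨h1, h2⟩
    have h2' : (N ^ i) x = 0 := h2
    refine ⟨⟨h1, ?_⟩, ?_⟩
    · show (N ^ (i + 1)) x = 0
      rw [pow_succ', Module.End.mul_apply, h2', map_zero]
    · show (N ^ i) x ∈ LinearMap.range (N ^ n)
      rw [h2']
      exact zero_mem _

theorem Loc.fl_stable (hL : Loc n N Φ q s B) {U : Submodule k V} (hU : ∀ x ∈ U, Φ x ∈ U)
    (i b : ℕ) : ∀ x ∈ fl N U i b, Φ x ∈ fl N U i b := by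
  rintro x ⟨⟨h1, h2⟩, h3⟩
  have h2' : (N ^ (i + 1)) x = 0 := h2
  refine ⟨⟨hU x h1, hL.ker_stable _ h2'⟩, ?_⟩
  show (N ^ i) (Φ x) ∈ LinearMap.range (N ^ b)
  rw [hL.pow_comm i h2']
  exact Submodule.smul_mem _ _ (hL.range_stable b h3)

theorem Loc.kf_stable (hL : Loc n N Φ q s B) {U : Submodule k V} (hU : ∀ x ∈ U, Φ x ∈ U)
    (i : ℕ) : ∀ x ∈ kf N U i, Φ x ∈ kf N U i := by
  rintro x ⟨h1, h2⟩
  exact ⟨hU x h1, hL.ker_stable _ h2⟩

theorem Loc.fl_step (hL : Loc n N Φ q s B) {U : Submodule k V} (hU : ∀ x ∈ U, Φ x ∈ U)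
    (i b : ℕ) {c : k} (hc : ∀ y ∈ soc N b, Φ y - c • y ∈ soc N (b + 1)) :
    ∀ x ∈ fl N U i b, Φ x - ((q : k) ^ i * c) • x ∈ fl N U i (b + 1) := by
  intro x hx
  have hst := hL.fl_stable hU i b x hx
  have h0 : Φ x - ((q : k) ^ i * c) • x ∈ fl N U i b :=
    (fl N U i b).sub_mem hst ((fl N U i b).smul_mem _ hx)
  refine ⟨h0.1, ?_⟩
  show (N ^ i) (Φ x - ((q : k) ^ i * c) • x) ∈ LinearMap.range (N ^ (b + 1))
  have h2' : (N ^ (i + 1)) x = 0 := hx.1.2
  rw [map_sub, map_smul, hL.pow_comm i h2']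
  have h3 : (N ^ i) x ∈ soc N b := by
    refine ⟨?_, hx.2⟩
    show N ((N ^ i) x) = 0
    rw [← Module.End.mul_apply, ← pow_succ', h2']
  have h4 := (hc _ h3).2
  have h5 : (q : k) ^ i • Φ ((N ^ i) x) - ((q : k) ^ i * c) • (N ^ i) x =
      (q : k) ^ i • (Φ ((N ^ i) x) - c • (N ^ i) x) := by
    module
  rw [h5]
  exact Submodule.smul_mem _ _ h4

theorem dl_le_one {U : Submodule k V} (i b : ℕ)
    (hd : finrank k (soc N b) ≤ finrank k (soc N (b + 1)) + 1) : dl N U i b ≤ 1 := by
  have h1 := diff_le (N ^ i) (A := fl N U i b) (A₁ := fl N U i (b + 1)) (B := soc N b)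
    (B₁ := soc N (b + 1)) (soc_anti b) (fun x hx => ⟨by
      show N ((N ^ i) x) = 0
      rw [← Module.End.mul_apply, ← pow_succ']
      exact hx.1.2, hx.2⟩) (fun x hx hx' => ⟨hx.1, hx'.2⟩)
  rw [dl]
  omega

theorem dl_anti {U : Submodule k V} (hU : ∀ x ∈ U, N x ∈ U) (i b : ℕ) :
    dl N U (i + 1) b ≤ dl N U i b := by
  have h1 := diff_le N (A := fl N U (i + 1) b) (A₁ := fl N U (i + 1) (b + 1)) (B := fl N U i b)
    (B₁ := fl N U i (b + 1)) (fl_anti U i b) (fun x hx => ⟨⟨hU x hx.1.1, by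
      show (N ^ (i + 1)) (N x) = 0
      rw [← Module.End.mul_apply, ← pow_succ]
      exact hx.1.2⟩, by
      show (N ^ i) (N x) ∈ LinearMap.range (N ^ b)
      rw [← Module.End.mul_apply, ← pow_succ]
      exact hx.2⟩) (fun x hx hx' => ⟨hx.1, by
      have h2 : (N ^ i) (N x) ∈ LinearMap.range (N ^ (b + 1)) := hx'.2
      rw [← Module.End.mul_apply, ← pow_succ] at h2
      exact h2⟩)
  rw [dl, dl]
  omega

theorem dl_zero {U : Submodule k V} {i b : ℕ} (h : b < i) : dl N U i b = 0 := by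
  rw [dl, fl_eq h.le, fl_eq (by omega : b + 1 ≤ i), Nat.sub_self]

theorem exists_of_dl {U : Submodule k V} {i b : ℕ} (h : dl N U i b ≠ 0) :
    ∃ x ∈ U, (N ^ (i + 1)) x = 0 ∧ (N ^ i) x ∈ LinearMap.range (N ^ b) ∧
      (N ^ i) x ∉ LinearMap.range (N ^ (b + 1)) := by
  by_contra hcon
  push Not at hcon
  apply h
  have h1 : fl N U i b ≤ fl N U i (b + 1) := by
    intro x hx
    exact ⟨hx.1, hcon x hx.1.1 hx.1.2 hx.2⟩
  rw [dl, le_antisymm h1 (fl_anti U i b), Nat.sub_self]

/-- the determinants along the double filtration -/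
theorem Loc.dR_row (hL : Loc n N Φ q s B) {U : Submodule k V} (hU : ∀ x ∈ U, Φ x ∈ U)
    {c : ℕ → k} (hc : ∀ b, ∀ y ∈ soc N b, Φ y - c b • y ∈ soc N (b + 1)) (i : ℕ) :
    dR Φ (kf N U (i + 1)) = dR Φ (kf N U i) * ∏ b ∈ range n, ((q : k) ^ i * c b) ^ dl N U i b := by
  have h1 : ∀ m : ℕ, dR Φ (fl N U i 0) =
      dR Φ (fl N U i m) * ∏ b ∈ range m, ((q : k) ^ i * c b) ^ dl N U i b := by
    intro m
    induction m with
    | zero => simp
    | succ m ih =>
      rw [ih, dR_step (fl_anti U i m) (hL.fl_stable hU i m) (hL.fl_stable hU i (m + 1))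
        (hL.fl_step hU i m (hc m)), Finset.prod_range_succ, dl]
      ring
  rw [← fl_eq (Nat.zero_le i), h1 n, fl_top hL.nil]

theorem Loc.dR_all (hL : Loc n N Φ q s B) {U : Submodule k V} (hU : ∀ x ∈ U, Φ x ∈ U)
    {c : ℕ → k} (hc : ∀ b, ∀ y ∈ soc N b, Φ y - c b • y ∈ soc N (b + 1)) :
    dR Φ U = ∏ i ∈ range n, ∏ b ∈ range n, ((q : k) ^ i * c b) ^ dl N U i b := by
  have h1 : ∀ m : ℕ, dR Φ (kf N U m) =
      ∏ i ∈ range m, ∏ b ∈ range n, ((q : k) ^ i * c b) ^ dl N U i b := by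
    intro m
    induction m with
    | zero =>
      have h2 : kf N U 0 = ⊥ := by
        rw [eq_bot_iff]
        rintro x ⟨_, hx⟩
        have hx' : (N ^ 0) x = 0 := hx
        rw [pow_zero] at hx'
        exact hx'
      rw [h2, dR_bot]
      simp
    | succ m ih => rw [hL.dR_row hU hc, ih, Finset.prod_range_succ]
  have h2 : kf N U n = U := by
    apply le_antisymm inf_le_left
    intro x hx
    refine ⟨hx, ?_⟩
    show (N ^ n) x = 0
    rw [hL.nil, LinearMap.zero_apply]
  rw [← h1 n, h2]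

theorem finrank_all (hn : N ^ n = 0) (U : Submodule k V) :
    finrank k U = ∑ i ∈ range n, ∑ b ∈ range n, dl N U i b := by
  have hrow : ∀ i, finrank k (kf N U (i + 1)) = finrank k (kf N U i) +
      ∑ b ∈ range n, dl N U i b := by
    intro i
    have h1 : ∀ m : ℕ, finrank k (fl N U i 0) = finrank k (fl N U i m) +
        ∑ b ∈ range m, dl N U i b := by
      intro m
      induction m with
      | zero => simp
      | succ m ih =>
        have h2 := Submodule.finrank_mono (fl_anti (N := N) U i m)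
        rw [ih, Finset.sum_range_succ, dl]
        omega
    rw [← fl_eq (Nat.zero_le i), h1 n, fl_top hn]
  have h1 : ∀ m : ℕ, finrank k (kf N U m) = ∑ i ∈ range m, ∑ b ∈ range n, dl N U i b := by
    intro m
    induction m with
    | zero =>
      have h2 : kf N U 0 = ⊥ := by
        rw [eq_bot_iff]
        rintro x ⟨_, hx⟩
        have hx' : (N ^ 0) x = 0 := hx
        rw [pow_zero] at hx'
        exact hx'
      rw [h2, finrank_bot]
      simp
    | succ m ih => rw [hrow, ih, Finset.sum_range_succ]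
  have h2 : kf N U n = U := by
    apply le_antisymm inf_le_left
    intro x hx
    refine ⟨hx, ?_⟩
    show (N ^ n) x = 0
    rw [hn, LinearMap.zero_apply]
  rw [← h1 n, h2]

/-- sequences of zeros and ones -/
theorem exists_count {f : ℕ → ℕ} (h1 : ∀ i, f i ≤ 1) (h2 : ∀ i, f (i + 1) ≤ f i) {b : ℕ}
    (h3 : ∀ i, b < i → f i = 0) : ∃ m ≤ b + 1, ∀ i, f i = if i < m then 1 else 0 := by
  classical
  have hex : ∃ i, f i = 0 := ⟨b + 1, h3 _ (Nat.lt_succ_self b)⟩
  have hanti : Antitone f := antitone_nat_of_succ_le h2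
  refine ⟨Nat.find hex, Nat.find_min' hex (h3 _ (Nat.lt_succ_self b)), ?_⟩
  intro i
  split_ifs with hi
  · have h4 := Nat.find_min hex hi
    have h5 := h1 i
    omega
  · have h4 := hanti (not_lt.1 hi)
    rw [Nat.find_spec hex] at h4
    omega

theorem sum_ite_lt {m n : ℕ} (h : m ≤ n) (f : ℕ → ℕ) :
    ∑ i ∈ range n, f i * (if i < m then 1 else 0) = ∑ i ∈ range m, f i := by
  simp only [mul_ite, mul_one, mul_zero]
  rw [← Finset.sum_filter]
  congr 1
  ext i
  simp only [mem_filter, mem_range]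
  omega

/-- **The local theorem.** -/
theorem Loc.main (hL : Loc n N Φ q s B)
    (hd : ∀ b, finrank k (soc N b) ≤ finrank k (soc N (b + 1)) + 1) :
    ∀ U : Submodule k V, (∀ x ∈ U, N x ∈ U) → ∀ hU : ∀ x ∈ U, Φ x ∈ U,
      ∃ e ≤ n ^ 3, LinearMap.det (Φ.restrict hU) ^ 2 * (q : k) ^ e = s ^ finrank k U ∧
        (e = 0 → (∀ x ∈ U, ∀ y ∈ U, B x y = 0) → U = ⊥) := by
  intro U hUN hU
  choose c hc hc2 using fun b => hL.exists_c (hd b)
  choose m hm hm' using fun b => exists_count (f := fun i => dl N U i b)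
    (fun i => dl_le_one i b (hd b)) (fun i => dl_anti hUN i b) (b := b) (fun i hi => dl_zero hi)
  have hrw : ∀ i b, dl N U i b = if i < m b then 1 else 0 := fun i b => hm' b i
  refine ⟨∑ b ∈ range n, m b * (b + 1 - m b), ?_, ?_, ?_⟩
  · calc ∑ b ∈ range n, m b * (b + 1 - m b) ≤ ∑ _b ∈ range n, n * n := by
          refine Finset.sum_le_sum fun b hb => ?_
          have h1 := Finset.mem_range.1 hb
          have h2 := hm b
          exact Nat.mul_le_mul (by omega) (by omega)
      _ = n ^ 3 := by rw [Finset.sum_const, card_range]; ring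
  · rw [← dR_eq hU, hL.dR_all hU hc, ← Finset.prod_pow]
    have h1 : ∀ i b, (((q : k) ^ i * c b) ^ dl N U i b) ^ 2 * (q : k) ^ (b * dl N U i b) =
        s ^ dl N U i b * (q : k) ^ (2 * i * dl N U i b) := by
      intro i b
      rcases Nat.eq_zero_or_pos (dl N U i b) with h0 | h0
      · rw [h0]
        simp
      · have h1 : dl N U i b = 1 := le_antisymm (dl_le_one i b (hd b)) h0
        obtain ⟨x, _, hx1, ⟨u, hu⟩, hx3⟩ := exists_of_dl h0.ne'
        have h2 := hc2 b ⟨u, by
          rw [pow_succ', Module.End.mul_apply, hu, ← Module.End.mul_apply, ← pow_succ', hx1], by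
          rw [hu]; exact hx3⟩
        rw [h1, pow_one, mul_one, mul_one, pow_one, ← h2]
        ring
    have h2 : (∏ i ∈ range n, (∏ b ∈ range n, ((q : k) ^ i * c b) ^ dl N U i b) ^ 2) *
        (q : k) ^ (∑ i ∈ range n, ∑ b ∈ range n, b * dl N U i b) =
        s ^ finrank k U * (q : k) ^ (∑ i ∈ range n, ∑ b ∈ range n, 2 * i * dl N U i b) := by
      rw [finrank_all hL.nil U, ← Finset.prod_pow_eq_pow_sum, ← Finset.prod_pow_eq_pow_sum,
        ← Finset.prod_pow_eq_pow_sum, ← Finset.prod_mul_distrib, ← Finset.prod_mul_distrib]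
      refine Finset.prod_congr rfl fun i _ => ?_
      rw [← Finset.prod_pow_eq_pow_sum, ← Finset.prod_pow_eq_pow_sum, ← Finset.prod_pow_eq_pow_sum,
        ← Finset.prod_pow, ← Finset.prod_mul_distrib, ← Finset.prod_mul_distrib]
      exact Finset.prod_congr rfl fun b _ => h1 i b
    have h3 : ∑ i ∈ range n, ∑ b ∈ range n, b * dl N U i b =
        (∑ i ∈ range n, ∑ b ∈ range n, 2 * i * dl N U i b) +
          ∑ b ∈ range n, m b * (b + 1 - m b) := by
      rw [Finset.sum_comm, Finset.sum_comm (f := fun i b => 2 * i * dl N U i b),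
        ← Finset.sum_add_distrib]
      refine Finset.sum_congr rfl fun b hb => ?_
      have hb' := Finset.mem_range.1 hb
      have hmb := hm b
      simp only [hrw]
      rw [sum_ite_lt (by omega) (fun _ => b), sum_ite_lt (by omega) (fun i => 2 * i),
        Finset.sum_const, card_range, smul_eq_mul, ← Finset.mul_sum]
      have h4 := Finset.sum_range_id_mul_two (m b)
      obtain ⟨r, hr⟩ : ∃ r, b + 1 = m b + r := ⟨b + 1 - m b, by omega⟩
      have h5 : b + 1 - m b = r := by omega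
      rw [h5, mul_comm 2, h4]
      rcases Nat.eq_zero_or_pos (m b) with h0 | h0
      · rw [h0]; simp
      · obtain ⟨t, ht⟩ : ∃ t, m b = t + 1 := ⟨m b - 1, by omega⟩
        rw [ht] at hr ⊢
        have h6 : b = t + r := by omega
        rw [h6, Nat.add_sub_cancel]
        ring
    rw [h3, pow_add] at h2
    have hq0 : (q : k) ^ (∑ i ∈ range n, ∑ b ∈ range n, 2 * i * dl N U i b) ≠ 0 :=
      pow_ne_zero _ hL.hq
    apply mul_right_cancel₀ hq0
    rw [← h2]
    ring
  · intro he hiso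
    by_contra hne
    have hpos : 0 < finrank k U := by
      rcases Nat.eq_zero_or_pos (finrank k U) with h0 | h0
      · exact absurd (Submodule.finrank_eq_zero.1 h0) hne
      · exact h0
    rw [finrank_all hL.nil U, Finset.sum_comm] at hpos
    obtain ⟨b, hb, hb'⟩ := Finset.exists_ne_zero_of_sum_ne_zero hpos.ne'
    obtain ⟨i, hi, hi'⟩ := Finset.exists_ne_zero_of_sum_ne_zero hb'
    rw [hrw] at hi'
    have h1 : i < m b := by
      by_contra h
      rw [if_neg h] at hi'
      exact hi' rfl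
    have h2 := (Finset.sum_eq_zero_iff.1 he) b hb
    have h3 : m b = b + 1 := by
      rcases Nat.mul_eq_zero.1 h2 with h4 | h4
      · omega
      · have := hm b
        omega
    have h4 : dl N U b b ≠ 0 := by
      rw [hrw, if_pos (by omega)]
      exact one_ne_zero
    obtain ⟨x, hxU, hx1, _, hx3⟩ := exists_of_dl h4
    have hst : ∀ j : ℕ, (N ^ j) x ∈ U := by
      intro j
      induction j with
      | zero => simpa using hxU
      | succ j ih =>
        rw [pow_succ', Module.End.mul_apply]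
        exact hUN _ ih
    exact hL.aniso (hd b) hx1 hx3 (hiso x hxU _ (hst b))

/-- the number of blocks from the ranks -/
theorem finrank_soc (b : ℕ) : finrank k (LinearMap.range (N ^ b)) =
    finrank k (LinearMap.range (N ^ (b + 1))) + finrank k (soc N b) := by
  let f : LinearMap.range (N ^ b) →ₗ[k] V := N.domRestrict _
  have h1 := f.finrank_range_add_finrank_ker
  have h2 : LinearMap.range f = LinearMap.range (N ^ (b + 1)) := by
    ext y
    constructor
    · rintro ⟨⟨_, z, rfl⟩, rfl⟩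
      refine ⟨z, ?_⟩
      rw [pow_succ', Module.End.mul_apply]
      rfl
    · rintro ⟨z, rfl⟩
      refine ⟨⟨(N ^ b) z, z, rfl⟩, ?_⟩
      rw [pow_succ', Module.End.mul_apply]
      rfl
  have h3 : finrank k (LinearMap.ker f) = finrank k (soc N b) := by
    let e : LinearMap.ker f ≃ₗ[k] soc N b :=
      { toFun := fun x => ⟨x.1.1, x.2, x.1.2⟩
        invFun := fun x => ⟨⟨x.1, x.2.2⟩, x.2.1⟩
        map_add' := fun _ _ => rfl
        map_smul' := fun _ _ => rfl
        left_inv := fun _ => rfl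
        right_inv := fun _ => rfl }
    exact e.finrank_eq
  rw [h2, h3] at h1
  omega

end Pool.Agent.Helper83.DB
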