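import Pool.Agent.Helper83.DB.Det
import Pool.Agent.Helper83.SM.Gen

/-!
# Polarized systems: Jordan blocks of pairwise different sizes exclude isotropic subspaces
-/

set_option autoImplicit false
set_option linter.unusedSectionVars false

namespace Pool.Agent.Helper83.DB

open Module Matrix Polynomial NumberField Pool.Agent.Y800 Pool.Agent.R390.SF IntegralSystem
open Pool.Agent.Y126.SH (chi exists_reps)
open Pool.Agent.Helper83.SM

attribute [local instance] Subgroup.fintypeQuotientOfFiniteIndex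

/-- The monodromy of the representation `ρ` at the place of `F` below `P` has Jordan blocks of pairwise
different sizes: for a geometric Frobenius element `σ` and an element `g` of the inertia group (a
generator of the tame inertia group) with `ρ(g) ρ(σ) = ρ(σ) ρ(g) ^ q`, where `q` is the number of
elements of the residue field, the nilpotent matrix `N = ρ(g) - 1` satisfies
`rank N ^ b + rank N ^ (b + 2) ≤ 2 rank N ^ (b + 1) + 1` for all `b ≥ 0`, that is, for every `b` it has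
at most one Jordan block of size `b + 1`. -/
def DistinctBlocksAt (F : SubFld ℚ) {k : Type} [Field k] {n : ℕ} (ρ : F.fixingSubgroup →* GL (Fin n) k)
    (P : Ideal ZBar) : Prop :=
  ∃ σ g : F.fixingSubgroup, IsGeomFrob (resCard F P) P σ ∧ InInertia P g ∧
    ρ g * ρ σ = ρ σ * ρ g ^ resCard F P ∧
    ∀ b : ℕ, (((ρ g : Matrix (Fin n) (Fin n) k) - 1) ^ b).rank +
      (((ρ g : Matrix (Fin n) (Fin n) k) - 1) ^ (b + 2)).rank ≤
        2 * (((ρ g : Matrix (Fin n) (Fin n) k) - 1) ^ (b + 1)).rank + 1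

section core

variable {F : SubFld ℚ} [hF : FiniteDimensional ℚ F] {n : ℕ} {S : Finset ℕ} {w : ℕ}
  {T : IntegralSystem F n} {ℓ : ℕ} [hℓ : Fact ℓ.Prime]
  {k : Type} [Field k] [TopologicalSpace k] [IsTopologicalRing k] (ψ : ℤ_[ℓ] →+* k)

/-- the form and the group -/
theorem form_rel {J : Matrix (Fin n) (Fin n) ℤ_[ℓ]} (hJ : T.IsPolarization w ℓ J)
    (s : F.fixingSubgroup) {c : k} (hc : (chik ψ s : k) * c = 1) (x y : Fin n → k) :
    Matrix.toBilin' (J.map ψ) (lin (rep ψ T) s x) (lin (rep ψ T) s y) =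
      c ^ w * Matrix.toBilin' (J.map ψ) x y := by
  classical
  let B := Matrix.toBilin' (J.map ψ)
  have hchi : ψ (chi ℓ (s : GQ) : ℤ_[ℓ]) * c = 1 := hc
  have h1 := congrArg (fun X => Matrix.map X ψ) (hJ.equivariant s)
  have h2 : (ψ (chi ℓ (s : GQ) : ℤ_[ℓ])) ^ w •
      ((rep ψ T s : Matrix (Fin n) (Fin n) k).transpose *
      J.map ψ * (rep ψ T s : Matrix (Fin n) (Fin n) k)) = J.map ψ := by
    refine Eq.trans ?_ h1
    have h3 : ∀ (c : ℤ_[ℓ]) (X : Matrix (Fin n) (Fin n) ℤ_[ℓ]), (c • X).map ψ = ψ c • X.map ψ := by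
      intro c X
      ext i j
      simp
    show _ = ((chi ℓ (s : GQ) : ℤ_[ℓ]) ^ w •
      ((T.rho ℓ s : Matrix (Fin n) (Fin n) ℤ_[ℓ]).transpose * J * (T.rho ℓ s))).map ψ
    rw [h3, map_pow, Matrix.map_mul, Matrix.map_mul, rep_val, Matrix.transpose_map]
  have h4 : B (lin (rep ψ T) s x) (lin (rep ψ T) s y) = Matrix.toBilin'
      ((rep ψ T s : Matrix (Fin n) (Fin n) k).transpose * J.map ψ *
        (rep ψ T s : Matrix (Fin n) (Fin n) k)) x y := by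
    rw [← Matrix.toBilin'_comp]
    rfl
  have h5 : B x y = (ψ (chi ℓ (s : GQ) : ℤ_[ℓ])) ^ w * B (lin (rep ψ T) s x)
      (lin (rep ψ T) s y) := by
    rw [h4]
    conv_lhs => rw [show B = Matrix.toBilin' (J.map ψ) from rfl, ← h2, map_smul]
    rfl
  show B _ _ = c ^ w * B x y
  rw [h5, ← mul_assoc, ← mul_pow, mul_comm c, hchi, one_pow, one_mul]

/-- the local data at a place -/
theorem exists_loc (hT : T.PureSystem S w) {J : Matrix (Fin n) (Fin n) ℤ_[ℓ]}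
    (hJ : T.IsPolarization w ℓ J) (hJψ : ψ J.det ≠ 0) {p : ℕ} (hp : p.Prime) (hpℓ : ℓ ≠ p)
    {P : Ideal ZBar} (hP : P.IsMaximal) (hpP : (p : ZBar) ∈ P) {f : ℕ}
    (hf : resCard F P = p ^ f) {s g : F.fixingSubgroup} (hs : IsGeomFrob (resCard F P) P s)
    (hg : InInertia P g) (hrel : rep ψ T g * rep ψ T s = rep ψ T s * rep ψ T g ^ resCard F P) :
    Loc n (lin (rep ψ T) g - 1) (lin (rep ψ T) s) (p ^ f) (((p : k) ^ f) ^ w)
      (Matrix.toBilin' (J.map ψ)) := by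
  classical
  have hchis : (chik ψ s : k) * (p : k) ^ f = 1 :=
    chik_geom ψ hp hpℓ hP hpP (by rw [← hf]; exact hs)
  have hchig : (chik ψ g : k) * 1 = 1 := by
    rw [mul_one, chik_inertia ψ hp hpℓ hP hpP hg, Units.val_one]
  have hN1 : 1 + (lin (rep ψ T) g - 1) = lin (rep ψ T) g := add_sub_cancel (1 : End k (Fin n → k)) _
  refine ⟨?_, ?_, ?_, ?_, ?_, ?_⟩
  · rw [hN1]
    show Matrix.toLin' _ ∘ₗ Matrix.toLin' _ = Matrix.toLin' _ ∘ₗ (Matrix.toLin' _) ^ (p ^ f)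
    rw [← Matrix.toLin'_pow, ← Matrix.toLin'_mul, ← Matrix.toLin'_mul, ← Units.val_mul, hrel,
      Units.val_mul, Units.val_pow_eq_pow_val, hf]
  · have h1 : IsNilpotent (lin (rep ψ T) g - 1) := by
      obtain ⟨m, hm⟩ := unip_inertia ψ hT hp hpℓ hP hpP hg
      refine ⟨m, ?_⟩
      have h2 : lin (rep ψ T) g - 1 =
          Matrix.toLin' ((rep ψ T g : Matrix (Fin n) (Fin n) k) - 1) := by
        rw [map_sub, Matrix.toLin'_one]
        rfl
      rw [h2, ← Matrix.toLin'_pow, hm, map_zero]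
    have h2 := Pool.Agent.Y126.MD.pow_top h1
    rwa [finrank_fin_fun] at h2
  · rw [Nat.cast_pow]
    exact right_ne_zero_of_mul_eq_one hchis
  · intro x y
    have h1 := form_rel ψ hJ g hchig x y
    rw [one_pow, one_mul] at h1
    have h2 : ∀ x, x + (lin (rep ψ T) g - 1) x = lin (rep ψ T) g x := by
      intro x
      rw [LinearMap.sub_apply, Module.End.one_apply]
      abel
    rw [h2, h2]
    exact h1
  · intro x y
    exact form_rel ψ hJ s hchis x y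
  · have hnd : (Matrix.toBilin' (J.map ψ)).Nondegenerate := by
      apply LinearMap.BilinForm.nondegenerate_toBilin'_of_det_ne_zero'
      have : (J.map ψ).det = ψ J.det := (RingHom.map_det ψ J).symm
      rwa [this]
    exact hnd.2

theorem rank_lin (ρ : F.fixingSubgroup →* GL (Fin n) k) (g : F.fixingSubgroup) (b : ℕ) :
    finrank k (LinearMap.range ((lin ρ g - 1) ^ b)) =
      (((ρ g : Matrix (Fin n) (Fin n) k) - 1) ^ b).rank := by
  have h2 : lin ρ g - 1 = Matrix.toLin' ((ρ g : Matrix (Fin n) (Fin n) k) - 1) := by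
    rw [map_sub, Matrix.toLin'_one]
    rfl
  rw [h2, ← Matrix.toLin'_pow]
  rfl

/-- **Distinct blocks: no isotropic stable subspaces.** -/
theorem no_iso_block (hT : T.PureSystem S w) {J : Matrix (Fin n) (Fin n) ℤ_[ℓ]}
    (hJ : T.IsPolarization w ℓ J) (hJψ : ψ J.det ≠ 0) {U : Submodule k (Fin n → k)}
    (hU : IsStable (rep ψ T) U)
    (hiso : ∀ x ∈ U, ∀ y ∈ U, dotProduct x ((J.map ψ).mulVec y) = 0)
    (hW : Wt ψ w (finrank k U) (detChar (rep ψ T) U hU))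
    {p : ℕ} (hp : p.Prime) (hpℓ : ℓ ≠ p)
    (hdb : ∀ P : Ideal ZBar, P.IsMaximal → (p : ZBar) ∈ P → DistinctBlocksAt F (rep ψ T) P)
    (hpk : ∀ e : ℕ, 0 < e → e ≤ expo F.fixingSubgroup * (finrank ℚ F * n ^ 3) → (p : k) ^ e ≠ 1) :
    U = ⊥ := by
  classical
  obtain ⟨P, σ, hP, hpP, hσ⟩ := exists_geom hp
  have hN : 0 < expo F.fixingSubgroup := expo_pos
  have hchip : (chik ψ σ : k) * (p : k) = 1 := chik_frob ψ hp hpℓ hP hpP hσ
  have hpk0 : (p : k) ≠ 0 := right_ne_zero_of_mul_eq_one hchip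
  have key : ∀ q : GQ ⧸ F.fixingSubgroup, ∃ e : ℕ, e ≤ n ^ 3 ∧
      (detChar (rep ψ T) U hU (zz σ q) : k) ^ 2 * (p : k) ^ (expo F.fixingSubgroup * e) =
        (p : k) ^ (expo F.fixingSubgroup * (w * finrank k U)) ∧ (e = 0 → U = ⊥) := by
    intro q
    obtain ⟨s, g, hs, hg, hrel, hrk⟩ := hdb (cj q.out P) (cj_max hP) (cj_nat.2 hpP)
    obtain ⟨f, m, hf, hfm, τ, hτ, hz⟩ := zz_eq hp hP hpP hσ q hs
    have hL := exists_loc ψ hT hJ hJψ hp hpℓ (cj_max (x := q.out) hP) (cj_nat.2 hpP) hf hs hg hrel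
    have hd : ∀ b, finrank k (soc (lin (rep ψ T) g - 1) b) ≤
        finrank k (soc (lin (rep ψ T) g - 1) (b + 1)) + 1 := by
      intro b
      have h1 := finrank_soc (N := lin (rep ψ T) g - 1) b
      have h2 := finrank_soc (N := lin (rep ψ T) g - 1) (b + 1)
      have h3 := hrk b
      rw [← rank_lin, ← rank_lin, ← rank_lin] at h3
      have h4 : b + 1 + 1 = b + 2 := rfl
      rw [h4] at h2
      omega
    obtain ⟨e, he, h1, h2⟩ := hL.main hd U (fun x hx => by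
      rw [LinearMap.sub_apply, Module.End.one_apply]
      exact U.sub_mem (hU g x hx) hx) (hU s)
    refine ⟨e, he, ?_, fun h0 => h2 h0 ?_⟩
    · have h3 : (detChar (rep ψ T) U hU s : k) ^ 2 * ((p : k) ^ f) ^ e =
          (((p : k) ^ f) ^ w) ^ finrank k U := by
        rw [Nat.cast_pow] at h1
        exact h1
      rw [hz, map_mul, det_inertia ψ hT hU hp hpℓ (cj_max hP) (cj_nat.2 hpP) hτ, mul_one, map_pow,
        Units.val_pow_eq_pow_val, ← hfm]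
      calc ((detChar (rep ψ T) U hU s : k) ^ m) ^ 2 * (p : k) ^ (f * m * e)
          = ((detChar (rep ψ T) U hU s : k) ^ 2 * ((p : k) ^ f) ^ e) ^ m := by
            rw [mul_pow, ← pow_mul, ← pow_mul, ← pow_mul, ← pow_mul, mul_comm m 2]
            congr 2
            ring
        _ = (p : k) ^ (f * m * (w * finrank k U)) := by
            rw [h3, ← pow_mul, ← pow_mul, ← pow_mul]
            congr 1
            ring
    · intro x hx y hy
      rw [Matrix.toBilin'_apply']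
      exact hiso x hx y hy
  choose e he hrel hbot using key
  obtain ⟨A, hA, hA'⟩ := hW
  have h1 := hA' p hp hpℓ P hP hpP σ hσ
  have h2 : ∏ q : GQ ⧸ F.fixingSubgroup, ((detChar (rep ψ T) U hU (zz σ q) : k) ^ 2 *
      (p : k) ^ (expo F.fixingSubgroup * e q)) =
      ∏ _q : GQ ⧸ F.fixingSubgroup, (p : k) ^ (expo F.fixingSubgroup * (w * finrank k U)) :=
    Finset.prod_congr rfl fun q _ => hrel q
  rw [Finset.prod_mul_distrib, Finset.prod_pow, h1, Finset.prod_pow_eq_pow_sum, ← Finset.mul_sum,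
    Finset.prod_const, Finset.card_univ, card_quot, ← pow_mul, ← pow_mul] at h2
  have h3 : expo F.fixingSubgroup * A * 2 =
      expo F.fixingSubgroup * (w * finrank k U) * finrank ℚ F := by
    rw [mul_assoc, hA]
    ring
  rw [h3] at h2
  have h4 : (p : k) ^ (expo F.fixingSubgroup * ∑ q, e q) = 1 :=
    mul_left_cancel₀ (pow_ne_zero _ hpk0) (h2.trans (mul_one _).symm)
  have h5 : ∑ q, e q = 0 := by
    by_contra hne
    refine hpk _ (Nat.mul_pos hN (Nat.pos_of_ne_zero hne)) ?_ h4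
    apply Nat.mul_le_mul_left
    calc ∑ q, e q ≤ ∑ _q : GQ ⧸ F.fixingSubgroup, n ^ 3 := Finset.sum_le_sum fun q _ => he q
      _ = finrank ℚ F * n ^ 3 := by
        rw [Finset.sum_const, Finset.card_univ, card_quot, smul_eq_mul]
  exact hbot ((1 : GQ) : GQ ⧸ F.fixingSubgroup)
    ((Finset.sum_eq_zero_iff.1 h5) _ (Finset.mem_univ _))

end core

section main

variable {F : SubFld ℚ} [hF : FiniteDimensional ℚ F] {n : ℕ}

/-- **Finiteness of classes of polarized systems without isotropic stable subspaces.** -/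
theorem pol_class_finiteness (hn : 0 < n) (w : ℕ) (S S' : Finset ℕ) (Λ : Set ℕ)
    (𝒞 : IntegralSystem F n → Prop) (h𝒞 : ∀ T, 𝒞 T → Polarized S S' w T)
    (hrat : ∀ T, 𝒞 T → ∀ (ℓ : ℕ) [Fact ℓ.Prime], ℓ ∈ Λ →
      ∃ J : Matrix (Fin n) (Fin n) ℚ_[ℓ], Equi (T.rat ℓ) J ∧ NoIso (T.rat ℓ) J)
    (hres : ∃ N₀ : ℕ, ∀ T, 𝒞 T → ∀ (ℓ : ℕ) [Fact ℓ.Prime], ℓ ∈ Λ → N₀ < ℓ → ℓ ∉ S' →
      (∀ (U : Submodule (ZMod ℓ) (Fin n → ZMod ℓ)) (hU : IsStable (T.res ℓ) U),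
        Wt (PadicInt.toZMod (p := ℓ)) w (finrank (ZMod ℓ) U) (detChar (T.res ℓ) U hU)) →
      ∀ J : Matrix (Fin n) (Fin n) ℤ_[ℓ], T.IsPolarization w ℓ J → IsUnit J.det →
        NoIso (toF (T.rho ℓ)) (rd J)) :
    ∃ (m : ℕ) (T : Fin m → IntegralSystem F n), (∀ i, 𝒞 (T i)) ∧
      ∀ T' : IntegralSystem F n, 𝒞 T' → ∃ i, IsomorphicOn Λ (T i) T' := by
  classical
  have hsemis : ∀ T, 𝒞 T → ∀ (ℓ : ℕ) [Fact ℓ.Prime], ℓ ∈ Λ → Semis (T.rat ℓ) := by
    intro T hT ℓ _ hΛ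
    obtain ⟨J, h1, h2⟩ := hrat T hT ℓ hΛ
    exact fun U hU => ⟨orth J U, orth_stable h1 hU, isCompl_orth h1 h2 hU⟩
  obtain ⟨N₀, hN₀⟩ := hres
  obtain ⟨𝒯, h𝒯, hdet⟩ := traces_of_finite (F := F) hn S
  obtain ⟨p, hp, hpS, P, hP, hpP, σ, hσ, hσc⟩ := exists_core (F := F) S
  let 𝒰 : Finset (Ideal (𝓞 F)) := 𝒯 ∪ (Finset.univ.image fun q : GQ ⧸ F.fixingSubgroup =>
    (cj q.out P).under (𝓞 F))
  have h𝒰 : ∀ 𝔭 ∈ 𝒰, 𝔭.IsMaximal ∧ ∃ p : ℕ, p.Prime ∧ p ∉ S ∧ (p : 𝓞 F) ∈ 𝔭 := by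
    intro 𝔭 h𝔭
    rcases Finset.mem_union.1 h𝔭 with h1 | h1
    · exact h𝒯 𝔭 h1
    · obtain ⟨q, _, rfl⟩ := Finset.mem_image.1 h1
      refine ⟨under_max (cj_max hP), p, hp, hpS, ?_⟩
      rw [mem_under, map_natCast]
      exact cj_nat.2 hpP
  have hmem : ∀ q : GQ ⧸ F.fixingSubgroup, (cj q.out P).under (𝓞 F) ∈ 𝒰 := fun q =>
    Finset.mem_union_right _ (Finset.mem_image_of_mem _ (Finset.mem_univ q))
  have hpoly : ∀ T T' : IntegralSystem F n, T.GoodSystem S w → T'.GoodSystem S w →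
      ((fun x : 𝒰 × Fin (n + 1) => (T.poly x.1).coeff x.2) =
        fun x : 𝒰 × Fin (n + 1) => (T'.poly x.1).coeff x.2) →
      ∀ 𝔭 ∈ 𝒰, T.poly 𝔭 = T'.poly 𝔭 := by
    intro T T' hT hT' heq 𝔭 h𝔭
    obtain ⟨h1, p, hp, hpS, hp𝔭⟩ := h𝒰 𝔭 h𝔭
    ext i
    by_cases hi : i < n + 1
    · exact congrFun heq (⟨𝔭, h𝔭⟩, ⟨i, hi⟩)
    · rw [Polynomial.coeff_eq_zero_of_natDegree_lt, Polynomial.coeff_eq_zero_of_natDegree_lt]
      · rw [(hT'.good p hp hpS 𝔭 h1 hp𝔭).natDegree]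
        omega
      · rw [(hT.good p hp hpS 𝔭 h1 hp𝔭).natDegree]
        omega
  refine exists_reps 𝒞 (fun T T' => IsomorphicOn Λ T T')
    (fun T => fun x : 𝒰 × Fin (n + 1) => (T.poly x.1).coeff x.2) ?_ ?_
  · refine (Set.Finite.pi' (t := fun x : 𝒰 × Fin (n + 1) => Set.Icc
      (-((Nat.card (𝓞 F ⧸ (x.1 : Ideal (𝓞 F))) ^ w) ^ n * n.choose (n / 2) : ℕ) : ℤ)
      (((Nat.card (𝓞 F ⧸ (x.1 : Ideal (𝓞 F))) ^ w) ^ n * n.choose (n / 2) : ℕ) : ℤ))
      (fun p => Set.finite_Icc _ _)).subset ?_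
    rintro _ ⟨T, hT, rfl⟩ x
    obtain ⟨h1, r, hr, hrS, h2⟩ := h𝒰 x.1 x.1.2
    exact abs_le.1 (coeff_bound (h𝒞 T hT).toGoodSystem hr hrS h1 h2 x.2)
  · intro T0 hT0
    have hT0' := h𝒞 T0 hT0
    obtain ⟨M, hM0, hM⟩ := exists_M hT0'.toGoodSystem hp hpS hP hpP hσ hσc (w * n)
    let N : ℕ := max (max (S'.sup id) N₀) (max p M.natAbs)
    choose k c hk hc using local_code2 (Λ := Λ) (T0 := T0)
      (fun ℓ hℓ hℓΛ => hsemis T0 hT0 ℓ hℓΛ)
    obtain ⟨K, ⟨e⟩⟩ := Finite.exists_equiv_fin (∀ ℓ : Fin (N + 1), Fin (k ℓ))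
    refine ⟨K, fun T => (e fun ℓ => ⟨c ℓ T, hk ℓ T⟩ : ℕ), fun T => Fin.is_lt _, ?_⟩
    intro T T' hT hT' hi hi' hcode ℓ hℓ hℓΛ
    have key : ∀ T : IntegralSystem F n, 𝒞 T →
        ((fun x : 𝒰 × Fin (n + 1) => (T.poly x.1).coeff x.2) =
          fun x : 𝒰 × Fin (n + 1) => (T0.poly x.1).coeff x.2) →
        ∃ B : Matrix (Fin n) (Fin n) ℤ_[ℓ], Inter T0 T ℓ B := by
      intro T hT hi
      refine exists_inter (hsemis T0 hT0 ℓ hℓΛ) (hsemis T hT ℓ hℓΛ) ?_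
      refine hdet w w T T0 (h𝒞 T hT).toGoodSystem hT0'.toGoodSystem (fun p hp => ?_) ℓ
      rw [hpoly T T0 (h𝒞 T hT).toGoodSystem hT0'.toGoodSystem hi p (Finset.mem_union_left _ hp)]
    have key2 : N < ℓ → ∀ T : IntegralSystem F n, 𝒞 T →
        ((fun x : 𝒰 × Fin (n + 1) => (T.poly x.1).coeff x.2) =
          fun x : 𝒰 × Fin (n + 1) => (T0.poly x.1).coeff x.2) →
        ∃ J : Matrix (Fin n) (Fin n) ℤ_[ℓ], T.IsPolarization w ℓ J ∧ IsUnit J.det ∧
          NoIso (toF (T.rho ℓ)) (rd J) := by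
      intro hN T hT hi
      simp only [N, max_lt_iff] at hN
      obtain ⟨⟨h1, h2⟩, h3, h4⟩ := hN
      have hℓS : ℓ ∉ S' := fun h => absurd (Finset.le_sup (f := id) h) (not_le.2 h1)
      obtain ⟨J, hJ, hJu⟩ := (h𝒞 T hT).polarization ℓ
      refine ⟨J, hJ, hJu hℓS, hN₀ T hT ℓ hℓΛ h2 hℓS (fun U hU => ?_) J hJ (hJu hℓS)⟩
      refine weight_sub (PadicInt.toZMod (p := ℓ)) continuous_toZMod mink_zmod
        (h𝒞 T hT).pure ((h𝒞 T hT).residualWeights ℓ hℓS) hp hpS (by omega) hP hpP hσ hσc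
        (M := M) (ne_zero_mod hM0 h4) ?_ U hU
      intro Ω _ _ hMΩ A a ha hA hprod
      refine hM Ω hMΩ A a ha (fun q => ?_) hprod
      rw [← hpoly T T0 (h𝒞 T hT).toGoodSystem hT0'.toGoodSystem hi _ (hmem q)]
      exact hA q
    have h1 := key T hT hi
    have h2 := key T' hT' hi'
    by_cases hℓN : ℓ ≤ N
    · have h3 := e.injective (Fin.ext hcode)
      have h4 := congrFun h3 ⟨ℓ, Nat.lt_succ_of_le hℓN⟩
      exact hc ℓ T T' hℓΛ h1 h2 (congrArg Fin.val h4)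
    · obtain ⟨B, hB, hBρ⟩ := h1
      obtain ⟨B', hB', hBρ'⟩ := h2
      obtain ⟨J0, hJ0, -, hn0⟩ := key2 (not_le.1 hℓN) T0 hT0 rfl
      obtain ⟨J, hJ, hJu, hn⟩ := key2 (not_le.1 hℓN) T hT hi
      obtain ⟨J', hJ', hJu', hn'⟩ := key2 (not_le.1 hℓN) T' hT' hi'
      obtain ⟨A, hA⟩ := uniq hJu hJ.equivariant hJ0.equivariant hn hn0 hB hBρ
      obtain ⟨A', hA'⟩ := uniq hJu' hJ'.equivariant hJ0.equivariant hn' hn0 hB' hBρ'
      refine ⟨A' * A⁻¹, fun g => ?_⟩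
      rw [hA, hA']
      group

end main

end Pool.Agent.Helper83.DB
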