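import Mathlib

/-!
# Frobenius and monodromy: Jordan blocks of pairwise different sizes

`V` is a space with a nondegenerate bilinear form `B`, `1 + N` is a unipotent isometry, `Φ` is a
similitude with factor `s` and `(1 + N) Φ = Φ (1 + N) ^ q`. If the Jordan blocks of `N` have pairwise
different sizes and `U` is stable under `N` and `Φ` then `det (Φ|U) ^ 2 q ^ e = s ^ (dim U)` for an
`e ≥ 0`, and if `e = 0` and `U` is isotropic then `U = 0`.
-/

set_option autoImplicit false
set_option linter.unusedSectionVars false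

namespace Pool.Agent.Helper83.DB

open Module Finset

variable {k V : Type*} [Field k] [AddCommGroup V] [Module k V] [FiniteDimensional k V]

/-- comparison of dimensions -/
theorem diff_le (f : V →ₗ[k] V) {A A₁ B B₁ : Submodule k V} (hB : B₁ ≤ B)
    (hf : ∀ x ∈ A, f x ∈ B) (hinj : ∀ x ∈ A, f x ∈ B₁ → x ∈ A₁) :
    finrank k A + finrank k B₁ ≤ finrank k B + finrank k A₁ := by
  let g : A →ₗ[k] (B ⧸ B₁.submoduleOf B) :=
    (B₁.submoduleOf B).mkQ ∘ₗ ((f.domRestrict A).codRestrict B fun x => hf x x.2)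
  have h1 := g.finrank_range_add_finrank_ker
  have h2 : finrank k (LinearMap.range g) ≤ finrank k (B ⧸ B₁.submoduleOf B) :=
    Submodule.finrank_le _
  have h3 := (B₁.submoduleOf B).finrank_quotient_add_finrank
  have h4 : finrank k (B₁.submoduleOf B) = finrank k B₁ :=
    (Submodule.submoduleOfEquivOfLe hB).finrank_eq
  have h5 : finrank k (LinearMap.ker g) ≤ finrank k A₁ := by
    let e : LinearMap.ker g →ₗ[k] A₁ :=
      ((Submodule.subtype _) ∘ₗ (Submodule.subtype _)).codRestrict _ fun x => by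
        have h5 : g x.1 = 0 := x.2
        apply hinj _ x.1.2
        have h6 : (⟨f x.1, hf x.1 x.1.2⟩ : B) ∈ B₁.submoduleOf B := by
          rw [← Submodule.Quotient.mk_eq_zero]
          exact h5
        exact h6
    apply LinearMap.finrank_le_finrank_of_injective (f := e)
    intro x y hxy
    have h5 := congrArg Subtype.val hxy
    exact Subtype.ext (Subtype.ext h5)
  omega

/-- the commutation relation -/
theorem exists_Q {N Φ : End k V} {q : ℕ} (hrel : (1 + N) * Φ = Φ * (1 + N) ^ q) :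
    ∃ Q R : End k V, Commute Q N ∧ Commute R N ∧ Q = (q : k) • (1 : End k V) + N * R ∧
      N * Φ = Φ * (N * Q) := by
  have hgeom : ∀ j : ℕ, (1 + N) ^ j = 1 + N * ∑ i ∈ range j, (1 + N) ^ i := by
    intro j
    have h1 := mul_geom_sum (1 + N) j
    rw [add_sub_cancel_left] at h1
    rw [h1]
    abel
  have hc : ∀ j : ℕ, Commute ((1 + N) ^ j) N := fun j =>
    ((Commute.one_left N).add_left (Commute.refl N)).pow_left j
  refine ⟨∑ j ∈ range q, (1 + N) ^ j, ∑ j ∈ range q, ∑ i ∈ range j, (1 + N) ^ i,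
    Commute.sum_left _ _ _ fun j _ => hc j,
    Commute.sum_left _ _ _ fun j _ => Commute.sum_left _ _ _ fun i _ => hc i, ?_, ?_⟩
  · rw [Finset.sum_congr rfl fun j _ => hgeom j, Finset.sum_add_distrib, Finset.mul_sum]
    congr 1
    rw [Finset.sum_const, card_range, Nat.cast_smul_eq_nsmul]
  · have h1 : N * Φ = (1 + N) * Φ - Φ := by rw [add_mul, one_mul]; abel
    rw [h1, hrel, hgeom q, mul_add, mul_one]
    abel

/-- the local data: monodromy and Frobenius with a form -/
structure Loc (n : ℕ) (N Φ : End k V) (q : ℕ) (s : k) (B : V →ₗ[k] V →ₗ[k] k) : Prop where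
  rel : (1 + N) * Φ = Φ * (1 + N) ^ q
  nil : N ^ n = 0
  hq : (q : k) ≠ 0
  iso : ∀ x y, B (x + N x) (y + N y) = B x y
  sim : ∀ x y, B (Φ x) (Φ y) = s * B x y
  nd : ∀ x, (∀ y, B y x = 0) → x = 0

variable {n : ℕ} {N Φ : End k V} {q : ℕ} {s : k} {B : V →ₗ[k] V →ₗ[k] k}

section comm

/-- the relation on the kernels -/
theorem Loc.pow_comm (hL : Loc n N Φ q s B) (i : ℕ) {x : V} (hx : (N ^ (i + 1)) x = 0) :
    (N ^ i) (Φ x) = (q : k) ^ i • Φ ((N ^ i) x) := by
  obtain ⟨Q, R, hQN, hRN, hQ, hNQ⟩ := exists_Q hL.rel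
  have h1 : ∀ i : ℕ, N ^ i * Φ = Φ * (N * Q) ^ i := by
    intro i
    induction i with
    | zero => rw [pow_zero, pow_zero, one_mul, mul_one]
    | succ i ih => rw [pow_succ, mul_assoc, hNQ, ← mul_assoc, ih, mul_assoc, ← pow_succ]
  have h2 : ∀ j : ℕ, (Q ^ j) ((N ^ i) x) = (q : k) ^ j • (N ^ i) x := by
    intro j
    induction j with
    | zero => simp
    | succ j ih =>
      have h3 : Q ((N ^ i) x) = (q : k) • (N ^ i) x := by
        have h4 : (N * R) ((N ^ i) x) = 0 := by
          rw [← hRN.eq, Module.End.mul_apply, ← Module.End.mul_apply N, ← pow_succ', hx, map_zero]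
        rw [hQ, LinearMap.add_apply, h4, add_zero]
        rfl
      rw [pow_succ, Module.End.mul_apply, h3, map_smul, ih, smul_smul, pow_succ, mul_comm]
  have h3 : (N ^ i) (Φ x) = (N ^ i * Φ) x := rfl
  rw [h3, h1, hQN.symm.mul_pow, Module.End.mul_apply]
  have h4 : (N ^ i * Q ^ i) x = (Q ^ i) ((N ^ i) x) := by
    rw [← (hQN.pow_pow i i).eq]
    rfl
  rw [h4, h2, map_smul]

theorem Loc.ker_stable (hL : Loc n N Φ q s B) (i : ℕ) {x : V} (hx : (N ^ i) x = 0) :
    (N ^ i) (Φ x) = 0 := by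
  have h1 := hL.pow_comm i (x := x) (by rw [pow_succ', Module.End.mul_apply, hx, map_zero])
  rw [h1, hx, map_zero, smul_zero]

theorem Loc.range_stable (hL : Loc n N Φ q s B) (b : ℕ) {y : V} (hy : y ∈ LinearMap.range (N ^ b)) :
    Φ y ∈ LinearMap.range (N ^ b) := by
  obtain ⟨Q, R, hQN, hRN, hQ, hNQ⟩ := exists_Q hL.rel
  have h1 : ∀ i : ℕ, N ^ i * Φ = Φ * (N * Q) ^ i := by
    intro i
    induction i with
    | zero => rw [pow_zero, pow_zero, one_mul, mul_one]
    | succ i ih => rw [pow_succ, mul_assoc, hNQ, ← mul_assoc, ih, mul_assoc, ← pow_succ]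
  have hQu : IsUnit Q := by
    rw [hQ]
    apply IsNilpotent.isUnit_add_left_of_commute
    · exact hRN.symm.isNilpotent_mul_right ⟨n, hL.nil⟩
    · have h2 : (q : k) • (1 : End k V) = algebraMap k (End k V) (q : k) := by
        rw [Algebra.algebraMap_eq_smul_one]
      rw [h2]
      exact (isUnit_iff_ne_zero.2 hL.hq).map _
    · have h2 : (q : k) • (1 : End k V) = algebraMap k (End k V) (q : k) := by
        rw [Algebra.algebraMap_eq_smul_one]
      rw [h2]
      exact (Algebra.commutes _ _).symm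
  obtain ⟨z, rfl⟩ := hy
  obtain ⟨G, hG⟩ := hQu.pow b
  refine ⟨Φ (((G⁻¹ : (End k V)ˣ) : End k V) z), ?_⟩
  have h3 : (N ^ b) (Φ (((G⁻¹ : (End k V)ˣ) : End k V) z)) =
    (N ^ b * Φ) (((G⁻¹ : (End k V)ˣ) : End k V) z) := rfl
  rw [h3, h1, hQN.symm.mul_pow, Module.End.mul_apply, Module.End.mul_apply, ← hG,
    ← Module.End.mul_apply (G : End k V), ← Units.val_mul, mul_inv_cancel]
  rfl

end comm

section form

theorem Loc.unit (hL : Loc n N Φ q s B) : IsUnit (1 + N) :=
  IsNilpotent.isUnit_one_add ⟨n, hL.nil⟩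

theorem Loc.adj (hL : Loc n N Φ q s B) (x y : V) : B (x + N x) (N y) = - B (N x) y := by
  have h1 := hL.iso x y
  rw [map_add (B (x + N x))] at h1
  have h2 : B (x + N x) y = B x y + B (N x) y := by rw [map_add]; rfl
  rw [h2] at h1
  linear_combination h1

theorem Loc.adj' (hL : Loc n N Φ q s B) (x y : V) : B (N x) (y + N y) = - B x (N y) := by
  have h1 := hL.iso x y
  have h2 : B (x + N x) (y + N y) = B x (y + N y) + B (N x) (y + N y) := by rw [map_add B]; rfl
  rw [h2, map_add (B x)] at h1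
  linear_combination h1

theorem Loc.adj_pow (hL : Loc n N Φ q s B) (a : ℕ) : ∀ x y : V,
    B (((1 + N) ^ a) x) ((N ^ a) y) = (-1) ^ a * B ((N ^ a) x) y := by
  induction a with
  | zero => intro x y; simp
  | succ a ih =>
    intro x y
    have h1 : ((1 + N) ^ (a + 1)) x = ((1 + N) ^ a) x + N (((1 + N) ^ a) x) := by
      rw [pow_succ', Module.End.mul_apply]
      rfl
    rw [pow_succ' N a, Module.End.mul_apply, h1, hL.adj]
    have h2 : N (((1 + N) ^ a) x) = ((1 + N) ^ a) (N x) := by
      have hc : Commute N ((1 + N) ^ a) :=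
        ((Commute.one_right N).add_right (Commute.refl N)).pow_right a
      rw [← Module.End.mul_apply, hc.eq, Module.End.mul_apply]
    rw [h2, ih, Module.End.mul_apply, pow_succ]
    have h3 : (N ^ a) (N x) = N ((N ^ a) x) := by
      rw [← Module.End.mul_apply, ← Module.End.mul_apply, ← pow_succ, pow_succ']
    rw [h3]
    ring

theorem Loc.adj_pow' (hL : Loc n N Φ q s B) (a : ℕ) : ∀ x y : V,
    B ((N ^ a) x) (((1 + N) ^ a) y) = (-1) ^ a * B x ((N ^ a) y) := by
  induction a with
  | zero => intro x y; simp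
  | succ a ih =>
    intro x y
    have h1 : ((1 + N) ^ (a + 1)) y = ((1 + N) ^ a) y + N (((1 + N) ^ a) y) := by
      rw [pow_succ', Module.End.mul_apply]
      rfl
    rw [pow_succ' N a, Module.End.mul_apply, h1, hL.adj']
    have h2 : N (((1 + N) ^ a) y) = ((1 + N) ^ a) (N y) := by
      have hc : Commute N ((1 + N) ^ a) :=
        ((Commute.one_right N).add_right (Commute.refl N)).pow_right a
      rw [← Module.End.mul_apply, hc.eq, Module.End.mul_apply]
    rw [h2, ih, Module.End.mul_apply, pow_succ]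
    have h3 : (N ^ a) (N y) = N ((N ^ a) y) := by
      rw [← Module.End.mul_apply, ← Module.End.mul_apply, ← pow_succ, pow_succ']
    rw [h3]
    ring

/-- inverse image under the power of `1 + N` -/
theorem Loc.exists_inv (hL : Loc n N Φ q s B) (a : ℕ) {y : V} (hy : (N ^ a) y = 0) :
    ∃ y', ((1 + N) ^ a) y' = y ∧ (N ^ a) y' = 0 := by
  obtain ⟨G, hG⟩ := hL.unit.pow a
  refine ⟨((G⁻¹ : (End k V)ˣ) : End k V) y, ?_, ?_⟩
  · rw [← hG, ← Module.End.mul_apply (G : End k V), ← Units.val_mul, mul_inv_cancel]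
    rfl
  · have hc : Commute (N ^ a) (G : End k V) := by
      rw [hG]
      exact (((Commute.one_right N).add_right (Commute.refl N)).pow_right a).pow_left a
    have hc' := hc.units_inv_right
    rw [← Module.End.mul_apply, hc'.eq, Module.End.mul_apply, hy, map_zero]

theorem Loc.orth_right (hL : Loc n N Φ q s B) {a : ℕ} {y : V} (hy : (N ^ a) y = 0) (z : V) :
    B y ((N ^ a) z) = 0 := by
  obtain ⟨y', rfl, hy'⟩ := hL.exists_inv a hy
  rw [hL.adj_pow, hy', map_zero, LinearMap.zero_apply, mul_zero]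

theorem Loc.orth_left (hL : Loc n N Φ q s B) {a : ℕ} {y : V} (hy : (N ^ a) y = 0) (z : V) :
    B ((N ^ a) z) y = 0 := by
  obtain ⟨y', rfl, hy'⟩ := hL.exists_inv a hy
  rw [hL.adj_pow', hy', map_zero, mul_zero]

/-- the range is the orthogonal complement of the kernel -/
theorem Loc.mem_range (hL : Loc n N Φ q s B) {a : ℕ} {x : V}
    (hx : ∀ y, (N ^ a) y = 0 → B y x = 0) : x ∈ LinearMap.range (N ^ a) := by
  let W := LinearMap.ker (N ^ a)
  let Ψ : V →ₗ[k] Dual k W := (W.subtype.dualMap).comp (LinearMap.flip B)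
  have hΨ : ∀ v (u : W), Ψ v u = B u v := fun v u => rfl
  have hΨs : Function.Surjective Ψ := by
    have h1 : Function.Surjective (W.subtype.dualMap) :=
      LinearMap.dualMap_surjective_of_injective W.subtype_injective
    have h2 : Function.Surjective (LinearMap.flip B) := by
      have h3 : Function.Injective (LinearMap.flip B) := by
        rw [← LinearMap.ker_eq_bot, LinearMap.ker_eq_bot']
        intro x hx
        apply hL.nd
        intro y
        exact LinearMap.congr_fun hx y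
      exact (LinearMap.injective_iff_surjective_of_finrank_eq_finrank
        (Subspace.dual_finrank_eq).symm).1 h3
    exact h1.comp h2
  have h1 := LinearMap.finrank_range_add_finrank_ker Ψ
  rw [LinearMap.range_eq_top.2 hΨs, finrank_top, Subspace.dual_finrank_eq] at h1
  have h2 := LinearMap.finrank_range_add_finrank_ker (N ^ a)
  have hle : LinearMap.range (N ^ a) ≤ LinearMap.ker Ψ := by
    rintro _ ⟨z, rfl⟩
    rw [LinearMap.mem_ker]
    apply LinearMap.ext
    intro u
    exact hL.orth_right u.2 z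
  have h3 : LinearMap.range (N ^ a) = LinearMap.ker Ψ :=
    Submodule.eq_of_le_of_finrank_eq hle (by
      have h4 : finrank k W = finrank k (LinearMap.ker (N ^ a)) := rfl
      omega)
  rw [h3, LinearMap.mem_ker]
  apply LinearMap.ext
  intro u
  exact hx u u.2

/-- the radical of the pairing -/
theorem Loc.rad (hL : Loc n N Φ q s B) {b : ℕ} {v v' z : V} (hv : (N ^ b) v = (N ^ (b + 1)) z)
    (hv' : (N ^ (b + 1)) v' = 0) : B v ((N ^ b) v') = 0 := by
  have h1 : (N ^ b) (v - N z) = 0 := by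
    rw [map_sub, hv, pow_succ, Module.End.mul_apply, sub_self]
  have h2 : v = (v - N z) + N z := by abel
  have h3 : N ((N ^ b) v') = 0 := by
    rw [← Module.End.mul_apply, ← pow_succ', hv']
  have h4 : B (N z) ((N ^ b) v') = 0 := by
    have h5 := hL.orth_left (a := 1) (y := (N ^ b) v') (by rw [pow_one]; exact h3) z
    rwa [pow_one] at h5
  have h5 : B v ((N ^ b) v') = B (v - N z) ((N ^ b) v') + B (N z) ((N ^ b) v') := by
    conv_lhs => rw [h2, map_add B]
    rfl
  rw [h5, h4, hL.orth_right h1, add_zero]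

end form

/-- the socle filtration -/
def soc (N : End k V) (b : ℕ) : Submodule k V := LinearMap.ker N ⊓ LinearMap.range (N ^ b)

theorem soc_anti (b : ℕ) : soc N (b + 1) ≤ soc N b := by
  apply inf_le_inf_left
  rintro _ ⟨z, rfl⟩
  exact ⟨N z, by rw [pow_succ, Module.End.mul_apply]⟩

theorem mem_soc {b : ℕ} {u : V} (hu : (N ^ (b + 1)) u = 0) : (N ^ b) u ∈ soc N b := by
  refine ⟨?_, u, rfl⟩
  show N ((N ^ b) u) = 0
  rw [← Module.End.mul_apply, ← pow_succ', hu]

/-- a line modulo the next step -/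
theorem exists_line {b : ℕ} (hd : finrank k (soc N b) ≤ finrank k (soc N (b + 1)) + 1) {x : V}
    (hx : x ∈ soc N b) (hx' : x ∉ soc N (b + 1)) {y : V} (hy : y ∈ soc N b) :
    ∃ t : k, y - t • x ∈ soc N (b + 1) := by
  have h1 : soc N (b + 1) ⊔ Submodule.span k {x} ≤ soc N b :=
    sup_le (soc_anti b) (by rw [Submodule.span_singleton_le_iff_mem]; exact hx)
  have h2 : soc N (b + 1) < soc N (b + 1) ⊔ Submodule.span k {x} := by
    refine lt_of_le_of_ne le_sup_left fun h => hx' ?_
    rw [h]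
    exact Submodule.mem_sup_right (Submodule.mem_span_singleton_self x)
  have h3 := Submodule.finrank_lt_finrank_of_lt h2
  have h4 : soc N (b + 1) ⊔ Submodule.span k {x} = soc N b :=
    Submodule.eq_of_le_of_finrank_le h1 (by omega)
  rw [← h4, Submodule.mem_sup] at hy
  obtain ⟨r, hr, z, hz, rfl⟩ := hy
  obtain ⟨t, rfl⟩ := Submodule.mem_span_singleton.1 hz
  exact ⟨t, by rwa [add_sub_cancel_right]⟩

/-- **The pairing is anisotropic.** -/
theorem Loc.aniso (hL : Loc n N Φ q s B) {b : ℕ}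
    (hd : finrank k (soc N b) ≤ finrank k (soc N (b + 1)) + 1) {u : V}
    (hu : (N ^ (b + 1)) u = 0) (hu' : (N ^ b) u ∉ LinearMap.range (N ^ (b + 1))) :
    B u ((N ^ b) u) ≠ 0 := by
  intro h0
  apply hu'
  apply hL.mem_range
  intro y hy
  obtain ⟨t, ht⟩ := exists_line hd (mem_soc hu) (fun h => hu' h.2) (mem_soc hy)
  obtain ⟨z, hz⟩ := ht.2
  have h1 : (N ^ b) (y - t • u) = (N ^ (b + 1)) z := by rw [map_sub, map_smul, hz]
  have h2 := hL.rad h1 hu
  have h3 : B (y - t • u) ((N ^ b) u) = B y ((N ^ b) u) - t * B u ((N ^ b) u) := by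
    rw [map_sub B, LinearMap.sub_apply, map_smul B, LinearMap.smul_apply, smul_eq_mul]
  rw [h3, h0, mul_zero, sub_zero] at h2
  exact h2

/-- **The eigenvalues of Frobenius on the socle.** -/
theorem Loc.exists_c (hL : Loc n N Φ q s B) {b : ℕ}
    (hd : finrank k (soc N b) ≤ finrank k (soc N (b + 1)) + 1) :
    ∃ c : k, (∀ y ∈ soc N b, Φ y - c • y ∈ soc N (b + 1)) ∧
      ((∃ u, (N ^ (b + 1)) u = 0 ∧ (N ^ b) u ∉ LinearMap.range (N ^ (b + 1))) →
        c ^ 2 * (q : k) ^ b = s) := by
  have hst : ∀ b, ∀ y ∈ soc N b, Φ y ∈ soc N b := by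
    intro b y hy
    refine ⟨?_, hL.range_stable b hy.2⟩
    have h1 := hL.ker_stable 1 (x := y) (by rw [pow_one]; exact hy.1)
    rwa [pow_one] at h1
  by_cases hex : ∃ u, (N ^ (b + 1)) u = 0 ∧ (N ^ b) u ∉ LinearMap.range (N ^ (b + 1))
  · obtain ⟨u, hu, hu'⟩ := hex
    have hx := mem_soc hu
    have hx' : (N ^ b) u ∉ soc N (b + 1) := fun h => hu' h.2
    obtain ⟨c, hc⟩ := exists_line hd hx hx' (hst b _ hx)
    refine ⟨c, ?_, ?_⟩
    · intro y hy
      obtain ⟨t, ht⟩ := exists_line hd hx hx' hy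
      have h1 : Φ y - c • y = (Φ (y - t • (N ^ b) u) - c • (y - t • (N ^ b) u)) +
          t • (Φ ((N ^ b) u) - c • (N ^ b) u) := by
        rw [map_sub, map_smul]
        module
      rw [h1]
      exact (soc N (b + 1)).add_mem ((soc N (b + 1)).sub_mem (hst _ _ ht)
        ((soc N (b + 1)).smul_mem _ ht)) ((soc N (b + 1)).smul_mem _ hc)
    · intro _
      have hβ := hL.aniso hd hu hu'
      set β := B u ((N ^ b) u) with hβdef
      have e1 := hL.pow_comm b hu
      obtain ⟨z, hz⟩ := hc.2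
      -- the difference
      have hv : (N ^ b) (Φ u - ((q : k) ^ b * c) • u) = (N ^ (b + 1)) ((q : k) ^ b • z) := by
        rw [map_sub, map_smul, e1, map_smul, hz]
        module
      have hΦu : (N ^ (b + 1)) (Φ u) = 0 := hL.ker_stable (b + 1) hu
      have e2 : B (Φ u) ((N ^ b) (Φ u)) = (q : k) ^ b * (s * β) := by
        rw [e1, map_smul, smul_eq_mul, hL.sim]
      have e3 : B (Φ u) ((N ^ b) (Φ u)) = (q : k) ^ b * c * B u ((N ^ b) (Φ u)) := by
        have h1 := hL.rad hv hΦu
        rw [map_sub B, LinearMap.sub_apply, map_smul B, LinearMap.smul_apply, smul_eq_mul,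
          sub_eq_zero] at h1
        exact h1
      have e4 : B u ((N ^ b) (Φ u)) = (q : k) ^ b * c * β := by
        have h1 : (N ^ b) (Φ u) = ((q : k) ^ b * c) • (N ^ b) u + (N ^ (b + 1)) ((q : k) ^ b • z) := by
          rw [← hv, map_sub, map_smul]
          abel
        rw [h1, map_add, map_smul, smul_eq_mul, hL.orth_right hu, add_zero]
      rw [e3, e4] at e2
      have hqb : (q : k) ^ b ≠ 0 := pow_ne_zero _ hL.hq
      have e5 : (q : k) ^ b * β * (c ^ 2 * (q : k) ^ b) = (q : k) ^ b * β * s := by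
        linear_combination e2
      exact mul_left_cancel₀ (mul_ne_zero hqb hβ) e5
  · refine ⟨0, ?_, fun h => absurd h hex⟩
    intro y hy
    rw [zero_smul, sub_zero]
    have h1 := hst b y hy
    obtain ⟨u, hu⟩ := h1.2
    refine ⟨h1.1, ?_⟩
    by_contra hcon
    apply hex
    refine ⟨u, ?_, ?_⟩
    · rw [pow_succ', Module.End.mul_apply, hu]
      exact h1.1
    · rw [hu]
      exact hcon

end Pool.Agent.Helper83.DB
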